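import Pool.Agent.Run7.h278.LG.Str

set_option autoImplicit false

/-!
# The three statements together as the case of equality in one inequality

Let `F/ℚ` be a finite Galois extension for which Artin's conjecture holds, and choose positive integers `d_χ = d_χ̄` (for
example `χ(1)`).  Put `κ_χ = 1` if `χ` has real values and root number `-1` (then `χ` is symplectic, by the theorem of
Fröhlich and Queyranne), and `κ_χ = 0` otherwise.  The statements (ii) and (iii) together say that the order of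
`L(s, χ)` at `1/2` is `κ_χ` for all `χ`.  Let `A(u) = e^(u/2) (∑_{n ≤ e^u} λ(n) (1/n - e^(-u)) - m u + c)`,
`-∑_χ d_χ L'/L(s, χ) = ∑ λ(n) n^(-s)`.  For every `s > 0` the mean value `δ ∫_0^∞ e^(-δ u) cosh (s A(u)) du` has a limit
`ℓ` in `[0, ∞]` as `δ → 0+`, which is never smaller than `B = cosh (4 s ∑ d_χ κ_χ) ∏ I_0 (2 s d_χ / (1/4 + γ²))`, the
product over the multiset `Γ_F`; and `ℓ = B` exactly if the Riemann hypothesis holds for all the `L(s, χ)` and (i), (ii)
and (iii) hold for `F`.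
-/

namespace Pool.Agent.Results.MP_3b6604_nt.CentralOrdersMoments

open Filter Topology MeasureTheory Set
open scoped ENNReal ComplexConjugate
open Run7.h278.LG (LFun ordAt)

/-- the modified Bessel function `I_0` -/
noncomputable def I0 (y : ℝ) : ℝ := ∑' k : ℕ, ((y / 2) ^ k / (k.factorial : ℝ)) ^ 2

/-- the function `A(u)` for the coefficients `lam`, the pole order `m` and the constant `c` -/
noncomputable def A (lam : ℕ → ℝ) (m c u : ℝ) : ℝ :=
  Real.exp (u / 2) * (∑ n ∈ Finset.Icc 1 ⌊Real.exp u⌋₊, lam n * (1 / (n : ℝ) - Real.exp (-u)) - m * u + c)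

/-- the Abel mean of `cosh (s A(u))` -/
noncomputable def M (lam : ℕ → ℝ) (m c s δ : ℝ) : ℝ≥0∞ :=
  ∫⁻ u in Ioi (0 : ℝ), ENNReal.ofReal (δ * Real.exp (-δ * u) * Real.cosh (s * A lam m c u))

/-- the Dirichlet series of `lam` -/
noncomputable def D (lam : ℕ → ℝ) (σ : ℝ) : ℝ := ∑' n : ℕ, lam n / (n : ℝ) ^ σ

/-- `1` if the L-function has real coefficients and root number `-1`, otherwise `0` -/
noncomputable def kap (L : LFun) : ℕ := open Classical in if (∀ n, (L.b n).im = 0) ∧ L.w = -1 then 1 else 0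

section families

variable {J : Type} [Fintype J] (L : J → LFun) (d : J → ℕ)

/-- the coefficients of `-∑ d_j L_j'/L_j` -/
noncomputable def lam (n : ℕ) : ℝ := ArithmeticFunction.vonMangoldt n * (∑ j, (d j : ℂ) * (L j).c n).re

/-- the total order of the pole at `1` -/
noncomputable def pole : ℝ := ∑ j, (d j : ℝ) * (L j).pole

/-- the pairs of a member of the family and a zero in the upper half plane of its completion -/
abbrev Zeros : Type := {p : J × ℂ // 0 < p.2.im ∧ (L p.1).Λ p.2 = 0}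

/-- the Riemann hypothesis for the members of the family -/
def GRH : Prop := ∀ (j : J) (ρ : ℂ), (L j).Λ ρ = 0 → ρ.re = 1 / 2

/-- the lower bound -/
noncomputable def bound (s : ℝ) : ℝ :=
  Real.cosh (4 * s * ∑ j, (d j : ℝ) * kap (L j)) *
    ∏' p : Zeros L, I0 (2 * s * d p.1.1 / (1 / 4 + p.1.2.im ^ 2)) ^ ordAt (L p.1.1).Λ p.1.2

/-- (i): all the zeros in the upper half plane are simple, and their ordinates, listed together with the L-functions,
are linearly independent -/
def Independent : Prop :=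
  (∀ p : Zeros L, ordAt (L p.1.1).Λ p.1.2 = 1) ∧ LinearIndependent ℚ fun p : Zeros L => p.1.2.im

end families

open Run7.h278 in
theorem I0_J (w : ℝ) : I0 (2 * w) = LM.J w := by
  unfold I0 LM.J
  refine tsum_congr fun k => ?_
  rw [mul_div_cancel_left₀ _ two_ne_zero]

open Run7.h278.LG Run7.h278

/-- the order at the centre is at least `kap` -/
theorem kap_le (L : LFun) : kap L ≤ ordAt L.Λ (1 / 2) := by
  classical
  unfold kap
  split_ifs with h
  · have h0 := L.isOne.half h.1 (fun s => by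
      have := L.fe s
      rw [h.2] at this
      rw [this]
      ring)
    have h1 : analyticOrderAt L.Λ (1 / 2) ≠ ⊤ := by
      intro htop
      have h2 := analyticOrderAt_eq_top.1 htop
      have h3 : AnalyticOnNhd ℂ L.Λ univ := fun w _ => L.entire.analyticAt w
      have h4 := h3.eqOn_of_preconnected_of_eventuallyEq (g := 0) (fun w _ => analyticAt_const) isPreconnected_univ
        (mem_univ _) h2
      exact L.one_ne (h4 (mem_univ 1))
    have h2 : analyticOrderAt L.Λ (1 / 2) ≠ 0 := (L.entire.analyticAt _).analyticOrderAt_ne_zero.2 h0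
    have h3 : ((analyticOrderNatAt L.Λ (1 / 2) : ℕ) : ℕ∞) = analyticOrderAt L.Λ (1 / 2) := Nat.cast_analyticOrderNatAt h1
    rw [← h3] at h2
    have h4 : analyticOrderNatAt L.Λ (1 / 2) ≠ 0 := by exact_mod_cast h2
    exact Nat.one_le_iff_ne_zero.2 h4
  · exact Nat.zero_le _

section

variable {J : Type} (L : J → LFun) (d : J → ℕ)

theorem fun_eq2 (s : ℝ) : (fun p : PO (fun j => (L j).Λ) =>
      (LM.J (s * ((d p.1.1 : ℝ) / (1 / 4 + p.1.2.im ^ 2)))) ^ WL.mu (L p.1.1).Λ p.1.2) =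
    fun p : Zeros L => I0 (2 * s * d p.1.1 / (1 / 4 + p.1.2.im ^ 2)) ^ ordAt (L p.1.1).Λ p.1.2 := by
  funext p
  have e : 2 * s * d p.1.1 / (1 / 4 + p.1.2.im ^ 2) = 2 * (s * ((d p.1.1 : ℝ) / (1 / 4 + p.1.2.im ^ 2))) := by
    ring
  rw [e, I0_J]
  rfl

end

/-- **The theorem.** -/
theorem result (J : Type) [Fintype J] (L : J → LFun) (d : J → ℕ) (hd : ∀ j, 1 ≤ d j)
    (hr : ∀ n, ArithmeticFunction.vonMangoldt n ≠ 0 → (∑ j, (d j : ℂ) * (L j).c n).im = 0) :
    (∀ j, kap (L j) ≤ ordAt (L j).Λ (1 / 2)) ∧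
    ∃ c : ℝ, Tendsto (fun σ : ℝ => pole L d / (σ - 1) - D (lam L d) σ) (𝓝[>] 1) (𝓝 (c - pole L d)) ∧
      ∀ s : ℝ, 0 < s →
        (GRH L → Multipliable fun p : Zeros L => I0 (2 * s * d p.1.1 / (1 / 4 + p.1.2.im ^ 2)) ^ ordAt (L p.1.1).Λ p.1.2) ∧
        ∃ ℓ : ℝ≥0∞, Tendsto (M (lam L d) (pole L d) c s) (𝓝[>] 0) (𝓝 ℓ) ∧
          (ℓ < ⊤ ↔ GRH L) ∧
          ENNReal.ofReal (bound L d s) ≤ ℓ ∧
          (ℓ = ENNReal.ofReal (bound L d s) ↔ GRH L ∧ Independent L ∧ ∀ j, ordAt (L j).Λ (1 / 2) = kap (L j)) := by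
  refine ⟨fun j => kap_le (L j), ?_⟩
  have F : Family (fun j => (L j).shifts) (fun j => (L j).pole) (fun j => (L j).N) (fun j => (L j).b) (fun j => (L j).c)
      (fun j => (L j).Λ) d := ⟨fun j => (L j).isOne, hr⟩
  have hl : ∀ n, |lamF (fun j => (L j).c) d n| ≤ dF (fun j => (L j).shifts) d * ArithmeticFunction.vonMangoldt n := by
    obtain ⟨w, hD⟩ := F.rd
    exact hD.lam_le
  obtain ⟨c, h1, h2⟩ := F.main_center hd hl (cl_refl _) (fun j => kap (L j)) (fun j => kap_le (L j))
  refine ⟨c, h1, fun s hs => ?_⟩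
  obtain ⟨h3, ℓ, h4, h5, h6, h7⟩ := h2 s hs
  have eb : Real.cosh (4 * s * ∑ j, (d j : ℝ) * kap (L j)) * CP (fun j => (L j).Λ) d s = bound L d s := by
    unfold bound CP
    congr 1
    exact congrArg tprod (fun_eq2 L d s)
  rw [eb] at h6 h7
  refine ⟨fun hG => ?_, ℓ, h4, h5, h6, h7⟩
  have h10 := h3 hG
  rw [← fun_eq2]
  exact h10

end Pool.Agent.Results.MP_3b6604_nt.CentralOrdersMoments
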