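import Mathlib
import Pool.Agent.Run7.h453.CB.Split

/-!
# Chebyshev's bias at the central point, without hypotheses on the zeros

`L / K` is a finite Galois extension of number fields with group `G`. For a function `f` on `G` let
`f(p)` be the mean value of `f` over the elements of `G` which induce `x ↦ x ^ N(p)` modulo a prime of
`L` over `p` (the value at the Frobenius element if `p` is not ramified and `f` is a class function),
and for `s ∈ ℂ`, `γ > π / 2` and `T > 0` let

  `P_f(s; T) = ∑_p f(p) N(p)^(-s) e^(i γ u) / Γ(1 + u)`,  `u = log N(p) / T`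

(an absolutely convergent smoothed sum over the primes with `log N(p)` up to about `T`). Put
`ν(f) = |G|⁻¹ ∑_g f(g²)` (the Frobenius-Schur indicator if `f` is an irreducible character) and, for the
meromorphic continuations `Z_F` of the Dedekind zeta functions of the intermediate fields,

  `θ_s(f) = |G|⁻¹ ∑_σ f(σ) (n / φ(n)) ∑_(d | n) (μ(d) / d) ord_s Z_(F(σ, d))`,

where `n` is the order of `σ` and `F(σ, d)` is the fixed field of `σ^d`.

(A) For every `f` which is constant on the divisions of `G` (for a character: which has rational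
values), *unconditionally*
`P_f(s; T) = -(θ_s(f) - θ_(2s)(f(g²)) / 2) log T + O(1)` if `Re s > 1/3`, and
`P_f(1/2; T) = -(θ_(1/2)(f) + ν(f) / 2) log T + O(1)`.
If the Artin `L`-function of `f` has the meromorphic continuation `Φ`, then `θ_s(f) = ord_s Φ`; so
`ord_(1/2) Φ = a` if and only if `P_f(1/2; T) / log T` tends to `-(a + ν(f) / 2)`. For an orthogonal
character `L(1/2, χ) ≠ 0` means the limit `-1/2`, for a unitary character the limit `0`, and for a
symplectic one `ord = (1 - W) / 2` means the limit `W / 2`.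

(B) For every class function `f`, if `Φ` and `Φ₂` are meromorphic continuations of the Artin
`L`-functions of `f` and of `g ↦ f(g²)`, then
`P_f(s; T) = -(ord_s Φ - ord_(2s) Φ₂ / 2) log T + O(1)` for `Re s > 1/3`.

(C) Chebyshev's bias against the primes which split completely, *unconditionally*: if `ι` is the number
of the elements of order `2` in `G`, `P_split` the sum for the indicator function of `1 ∈ G` and
`P_all` the sum for the constant `1`, then
`|G| P_split(1/2; T) - P_all(1/2; T) = -(ord_(1/2) ζ_L - ord_(1/2) ζ_K + ι / 2) log T + O(1)`.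
For `K = ℚ` the weight is `ord_(1/2) ζ_L + ι / 2 ≥ ι / 2`; so for every Galois extension of `ℚ` of even
degree the difference tends to `-∞` at least as fast as `-(1/2) log T`, and `ζ_L(1/2) ≠ 0` if and only
if it is `-(ι / 2) log T + O(1)`.
-/

set_option autoImplicit false
set_option linter.unusedSectionVars false

namespace Pool.Agent.Results.MP_3b6604_nt.ChebyshevBias

open NumberField IntermediateField IsDedekindDomain Filter Topology Set
open Pool.Agent.K4H74
open scoped ArithmeticFunction.Moebius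

section defs

variable {K L : Type} [Field K] [NumberField K] [Field L] [NumberField L] [Algebra K L]

/-- `f(p) N(p)^(-s) e^(i γ u) / Γ(1 + u)`, `u = log N(p) / T`; `f(p)` is the mean
`Pool.Agent.K4H74.SC.frobMean`. -/
noncomputable def primeTerm (f : (L ≃ₐ[K] L) → ℂ) (s : ℂ) (γ T : ℝ) (p : HeightOneSpectrum (𝓞 K)) :
    ℂ :=
  SC.frobMean K L f p.asIdeal 1 * ((Ideal.absNorm p.asIdeal : ℕ) : ℂ) ^ (-s) *
    Complex.exp ((γ * (Real.log (Ideal.absNorm p.asIdeal : ℕ) / T) : ℝ) * Complex.I) *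
    ((Real.Gamma (1 + Real.log (Ideal.absNorm p.asIdeal : ℕ) / T))⁻¹ : ℝ)

/-- `P_f(s; T)` -/
noncomputable def primeSum (f : (L ≃ₐ[K] L) → ℂ) (s : ℂ) (γ T : ℝ) : ℂ :=
  ∑' p, primeTerm f s γ T p

/-- `g` generates a subgroup conjugate to `⟨σ⟩`. -/
def InDivision (σ g : L ≃ₐ[K] L) : Prop :=
  ∃ x : L ≃ₐ[K] L, Subgroup.zpowers (x⁻¹ * g * x) = Subgroup.zpowers σ

/-- `f` is constant on the divisions. -/
def OnDivisions (f : (L ≃ₐ[K] L) → ℂ) : Prop := ∀ σ g, InDivision σ g → f g = f σ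

/-- `Z` is the meromorphic continuation of the Dedekind zeta function of `F`. -/
def IsZeta (F : Type) [Field F] [NumberField F] (Z : ℂ → ℂ) : Prop :=
  (∀ s, MeromorphicAt Z s) ∧ ∀ s : ℂ, 1 < s.re → Z s = dedekindZeta F s

/-- `Φ` is a meromorphic continuation of `L(s, f) = exp (∑ f(p^n) / (n N(p)^(n s)))`. -/
def IsArtinL (f : (L ≃ₐ[K] L) → ℂ) (Φ : ℂ → ℂ) : Prop :=
  (∀ z, MeromorphicAt Φ z) ∧
    ∀ s : ℂ, 1 < s.re → ∀ l : ℂ, HasSum (SC.logTerm K L f s) l → Φ s = Complex.exp l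

/-- The order at `s`, as a complex number. -/
noncomputable def ord (Φ : ℂ → ℂ) (s : ℂ) : ℂ := ((meromorphicOrderAt Φ s).untop₀ : ℂ)

/-- `θ_s(f)` -/
noncomputable def theta (Z : IntermediateField K L → ℂ → ℂ) (s : ℂ) (f : (L ≃ₐ[K] L) → ℂ) : ℂ :=
  (Nat.card (L ≃ₐ[K] L) : ℂ)⁻¹ * ∑ σ : L ≃ₐ[K] L, f σ * ((orderOf σ : ℂ) /
    Nat.totient (orderOf σ) * ∑ d ∈ (orderOf σ).divisors, ((μ d : ℤ) : ℂ) / d *
      ord (Z (fixedField (Subgroup.zpowers (σ ^ d)))) s)

/-- `ν(f)`, the mean of `f(g²)`. -/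
noncomputable def nu (f : (L ≃ₐ[K] L) → ℂ) : ℂ :=
  (Nat.card (L ≃ₐ[K] L) : ℂ)⁻¹ * ∑ g : L ≃ₐ[K] L, f (g ^ 2)

variable (K L)

open Classical in
/-- `|G| P_split(1/2; T) - P_all(1/2; T)` -/
noncomputable def splitBias (γ T : ℝ) : ℂ :=
  (Nat.card (L ≃ₐ[K] L) : ℂ) * primeSum (K := K) (Pi.single 1 1 : (L ≃ₐ[K] L) → ℂ) (1 / 2) γ T -
    primeSum (K := K) (fun _ : L ≃ₐ[K] L => (1 : ℂ)) (1 / 2) γ T

/-- The number of the elements of order `2`. -/
noncomputable def involutions : ℕ := Nat.card {g : L ≃ₐ[K] L // orderOf g = 2}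

end defs

section proofs

open Pool.Agent.Run7.h453

variable {K L : Type} [Field K] [NumberField K] [Field L] [NumberField L] [Algebra K L]

lemma term_eq (f : (L ≃ₐ[K] L) → ℂ) (s : ℂ) (γ T : ℝ) (p : HeightOneSpectrum (𝓞 K)) :
    primeTerm f s γ T p = CX.rterm (ST.lamI K) (SC.logTerm K L f s) γ T (p, 1) := by
  unfold primeTerm CX.rterm SC.logTerm ST.lamI
  have h0 : ((Ideal.absNorm p.asIdeal : ℕ) : ℂ) ≠ 0 := by
    have := SC.two_le_absNorm p
    exact_mod_cast (by omega : Ideal.absNorm p.asIdeal ≠ 0)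
  simp only [PNat.one_coe, Nat.cast_one, one_mul]
  rw [Complex.cpow_neg, div_eq_mul_inv]
  rfl

lemma sum_eq (f : (L ≃ₐ[K] L) → ℂ) (s : ℂ) (γ T : ℝ) : primeSum f s γ T = CB.PA f s γ T :=
  tsum_congr fun p => term_eq f s γ T p

lemma term_summable (f : (L ≃ₐ[K] L) → ℂ) (s : ℂ) (γ : ℝ) {T : ℝ} (hT : 0 < T) :
    Summable fun p => ‖primeTerm f s γ T p‖ := by
  have hinj : Function.Injective fun p : HeightOneSpectrum (𝓞 K) => (p, (1 : ℕ+)) :=
    fun a b h => (Prod.mk.inj h).1
  have h1 := (CB.SA_summable f s γ hT).comp_injective hinj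
  refine h1.congr fun p => ?_
  rw [term_eq]
  rfl

lemma theta_eq (Z : IntermediateField K L → ℂ → ℂ) (s : ℂ) (f : (L ≃ₐ[K] L) → ℂ) :
    theta Z s f = CB.AV f (CB.ordF Z s) := rfl

/-- from the law to the limit -/
lemma limit_of {S : ℝ → ℂ} {a : ℂ}
    (h : (fun T : ℝ => S T + a * Real.log T) =O[atTop] fun _ : ℝ => (1 : ℝ)) :
    Tendsto (fun T : ℝ => S T / (Real.log T : ℂ)) atTop (𝓝 (-a)) := by
  have h1 : (fun _ : ℝ => (1 : ℝ)) =o[atTop] fun T : ℝ => (Real.log T : ℂ) := by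
    rw [Asymptotics.isLittleO_const_left]
    refine Or.inr ?_
    have h2 := tendsto_norm_atTop_atTop.comp Real.tendsto_log_atTop
    refine h2.congr fun T => ?_
    simp only [Function.comp_apply, Complex.norm_real]
  have h2' : Tendsto (fun T : ℝ => (S T + a * Real.log T) / (Real.log T : ℂ)) atTop (𝓝 0) :=
    (h.trans_isLittleO h1).tendsto_div_nhds_zero
  have h5 : Tendsto (fun T : ℝ => (S T + a * Real.log T) / (Real.log T : ℂ) - a) atTop
      (𝓝 (0 - a)) := h2'.sub_const a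
  rw [zero_sub] at h5
  refine h5.congr' ?_
  filter_upwards [eventually_gt_atTop 1] with T hT
  have h6 : (Real.log T : ℂ) ≠ 0 := by
    exact_mod_cast (Real.log_pos hT).ne'
  field_simp
  ring

variable [IsGalois K L]

lemma order_rat {Z : ℂ → ℂ} (hZ : IsZeta ℚ Z) : ord Z (1 / 2) = 0 := by
  have h := CB.order_real hZ.1 hZ.2 (x := 1 / 2) (by norm_num) (by norm_num)
  have e : ((1 / 2 : ℝ) : ℂ) = 1 / 2 := by push_cast; rfl
  rw [e] at h
  unfold ord
  rw [h]
  simp

end proofs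

open Classical in
theorem result :
    -- the continuations exist, the sums converge absolutely
    (∀ (F : Type) [Field F] [NumberField F], ∃ Z, IsZeta F Z) ∧
    (∀ (K L : Type) [Field K] [NumberField K] [Field L] [NumberField L] [Algebra K L]
      (f : (L ≃ₐ[K] L) → ℂ) (s : ℂ) (γ T : ℝ), 0 < T → Summable fun p => ‖primeTerm f s γ T p‖) ∧
    -- (A)
    (∀ (K L : Type) [Field K] [NumberField K] [Field L] [NumberField L] [Algebra K L] [IsGalois K L]
      (f : (L ≃ₐ[K] L) → ℂ) (Z : IntermediateField K L → ℂ → ℂ), OnDivisions f →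
      (∀ F : IntermediateField K L, IsZeta F (Z F)) → ∀ γ : ℝ, Real.pi / 2 < γ →
      (∀ s : ℂ, 1 / 3 < s.re → (fun T : ℝ => primeSum f s γ T +
        (theta Z s f - 1 / 2 * theta Z (2 * s) fun g => f (g ^ 2)) * Real.log T) =O[atTop]
          fun _ : ℝ => (1 : ℝ)) ∧
      ((fun T : ℝ => primeSum f (1 / 2) γ T + (theta Z (1 / 2) f + 1 / 2 * nu f) *
        Real.log T) =O[atTop] fun _ : ℝ => (1 : ℝ)) ∧
      ∀ Φ : ℂ → ℂ, IsArtinL f Φ → (∀ s, meromorphicOrderAt Φ s ≠ ⊤ ∧ ord Φ s = theta Z s f) ∧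
        ∀ a : ℂ, ord Φ (1 / 2) = a ↔
          Tendsto (fun T : ℝ => primeSum f (1 / 2) γ T / (Real.log T : ℂ)) atTop
            (𝓝 (-(a + nu f / 2)))) ∧
    -- (B)
    (∀ (K L : Type) [Field K] [NumberField K] [Field L] [NumberField L] [Algebra K L] [IsGalois K L]
      (f : (L ≃ₐ[K] L) → ℂ) (Φ Φ₂ : ℂ → ℂ), (∀ g x, f (x * g * x⁻¹) = f g) → IsArtinL f Φ →
      IsArtinL (fun g => f (g ^ 2)) Φ₂ → ∀ γ : ℝ, Real.pi / 2 < γ → ∀ s : ℂ, 1 / 3 < s.re →
      (fun T : ℝ => primeSum f s γ T + (ord Φ s - 1 / 2 * ord Φ₂ (2 * s)) * Real.log T) =O[atTop]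
        fun _ : ℝ => (1 : ℝ)) ∧
    -- (C)
    (∀ (K L : Type) [Field K] [NumberField K] [Field L] [NumberField L] [Algebra K L] [IsGalois K L]
      (ZK ZL : ℂ → ℂ), IsZeta K ZK → IsZeta L ZL → ∀ γ : ℝ, Real.pi / 2 < γ →
      (fun T : ℝ => splitBias K L γ T + (ord ZL (1 / 2) - ord ZK (1 / 2) +
        1 / 2 * (involutions K L : ℂ)) * Real.log T) =O[atTop] fun _ : ℝ => (1 : ℝ)) ∧
    ∀ (L : Type) [Field L] [NumberField L] [IsGalois ℚ L] (ZL : ℂ → ℂ), IsZeta L ZL →
      ∀ γ : ℝ, Real.pi / 2 < γ →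
      (∃ m : ℕ, meromorphicOrderAt ZL (1 / 2) = (m : ℤ) ∧
        (fun T : ℝ => splitBias ℚ L γ T + (m + 1 / 2 * (involutions ℚ L : ℂ)) *
          Real.log T) =O[atTop] fun _ : ℝ => (1 : ℝ)) ∧
      (∃ C T₀ : ℝ, ∀ T ≥ T₀, (splitBias ℚ L γ T).re ≤ -(involutions ℚ L / 2) * Real.log T + C) ∧
      (Even (Module.finrank ℚ L) → 0 < involutions ℚ L ∧
        Tendsto (fun T : ℝ => (splitBias ℚ L γ T).re) atTop atBot) ∧
      (meromorphicOrderAt ZL (1 / 2) = 0 ↔ (fun T : ℝ => splitBias ℚ L γ T +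
        1 / 2 * (involutions ℚ L : ℂ) * Real.log T) =O[atTop] fun _ : ℝ => (1 : ℝ)) := by
  refine ⟨fun F _ _ => ?_, fun K L _ _ _ _ _ f s γ T hT => term_summable f s γ hT,
    fun K L _ _ _ _ _ _ f Z hf hZ γ hγ => ?_,
    fun K L _ _ _ _ _ _ f Φ Φ₂ hf hΦ hΦ₂ γ hγ s hs => ?_,
    fun K L _ _ _ _ _ _ ZK ZL hK hL γ hγ => ?_,
    fun L _ _ _ ZL hL γ hγ => ?_⟩
  · obtain ⟨Z, h1, h2, -⟩ := Pool.Agent.Run7.h453.CB.good F
    exact ⟨Z, h1, h2⟩
  · have hB := Pool.Agent.Run7.h453.CB.half_law hf hZ hγ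
    have hB' : (fun T : ℝ => primeSum f (1 / 2) γ T + (theta Z (1 / 2) f + 1 / 2 * nu f) *
        Real.log T) =O[atTop] fun _ : ℝ => (1 : ℝ) := by
      simp only [sum_eq]
      exact hB
    refine ⟨fun s hs => ?_, hB', fun Φ hΦ => ?_⟩
    · simp only [sum_eq]
      exact Pool.Agent.Run7.h453.CB.prime_law hf hZ (by linarith) hγ
    · have h1 := Pool.Agent.Run7.h453.CB.order_eq hf hZ hΦ
      refine ⟨h1, fun a => ?_⟩
      have h2 := limit_of hB'
      have h3 : ord Φ (1 / 2) = theta Z (1 / 2) f := (h1 _).2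
      constructor
      · rintro rfl
        rw [h3]
        refine h2.congr' ?_ |>.trans (le_of_eq ?_)
        · exact EventuallyEq.rfl
        · congr 1
          ring
      · intro h4
        have h5 := tendsto_nhds_unique h2 h4
        rw [h3]
        linear_combination -h5
  · simp only [sum_eq]
    exact Pool.Agent.Run7.h453.CB.class_law hf hΦ hΦ₂ (by linarith) hγ
  · have h := Pool.Agent.Run7.h453.CB.split_law (K := K) (L := L) hK hL hγ
    unfold splitBias
    simp only [sum_eq]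
    exact h
  · obtain ⟨ZK, hK⟩ : ∃ Z, IsZeta ℚ Z := by
      obtain ⟨Z, h1, h2, -⟩ := Pool.Agent.Run7.h453.CB.good ℚ
      exact ⟨Z, h1, h2⟩
    have hne : (1 / 2 : ℂ) ≠ 1 := by norm_num
    have h0 := Pool.Agent.Run7.h453.CB.order_nonneg hL.1 hL.2 hne
    have hfin : meromorphicOrderAt ZL (1 / 2) ≠ ⊤ := by
      obtain ⟨Z, hZ⟩ := Pool.Agent.Run7.h453.CB.exists_Z (K := L) (L := L)
      exact (Pool.Agent.Run7.h453.CB.order_eq (K := L) (L := L) (f := fun _ => (1 : ℂ))
        (fun _ _ _ => rfl) hZ (Pool.Agent.Run7.h453.CB.cont_one hL) (1 / 2)).1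
    obtain ⟨k, hk⟩ := WithTop.ne_top_iff_exists.1 hfin
    have hk0 : 0 ≤ k := by
      rw [← hk] at h0
      exact_mod_cast h0
    obtain ⟨m, rfl⟩ := Int.eq_ofNat_of_zero_le hk0
    have hord : ord ZL (1 / 2) = m := by
      unfold ord
      rw [← hk]
      simp
    have hlaw : (fun T : ℝ => splitBias ℚ L γ T + (m + 1 / 2 * (involutions ℚ L : ℂ)) *
          Real.log T) =O[atTop] fun _ : ℝ => (1 : ℝ) := by
      have h := Pool.Agent.Run7.h453.CB.split_law (K := ℚ) (L := L) hK hL hγ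
      have h1 : ((meromorphicOrderAt ZL (1 / 2)).untop₀ : ℂ) = m := hord
      have h2 : ((meromorphicOrderAt ZK (1 / 2)).untop₀ : ℂ) = 0 := order_rat hK
      rw [h1, h2, sub_zero] at h
      unfold splitBias
      simp only [sum_eq]
      exact h
    have hupper : ∃ C T₀ : ℝ, ∀ T ≥ T₀, (splitBias ℚ L γ T).re ≤
        -(involutions ℚ L / 2) * Real.log T + C := by
      obtain ⟨C, hC⟩ := hlaw.bound
      obtain ⟨T₀, hT₀⟩ := eventually_atTop.1 hC
      refine ⟨C, max T₀ 1, fun T hT => ?_⟩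
      have h1 := hT₀ T ((le_max_left _ _).trans hT)
      have hT1 : 1 ≤ T := (le_max_right _ _).trans hT
      have hlog : 0 ≤ Real.log T := Real.log_nonneg hT1
      rw [norm_one, mul_one] at h1
      have h2 := (Complex.re_le_norm _).trans h1
      have h3 : (splitBias ℚ L γ T + (m + 1 / 2 * (involutions ℚ L : ℂ)) * Real.log T).re =
          (splitBias ℚ L γ T).re + (m + 1 / 2 * (involutions ℚ L : ℝ)) * Real.log T := by
        rw [Complex.add_re]
        congr 1
        have : ((m : ℂ) + 1 / 2 * (involutions ℚ L : ℂ)) * (Real.log T : ℂ) =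
            (((m + 1 / 2 * (involutions ℚ L : ℝ)) * Real.log T : ℝ) : ℂ) := by push_cast; ring
        rw [this, Complex.ofReal_re]
      rw [h3] at h2
      have h4 : 0 ≤ (m : ℝ) * Real.log T := by positivity
      linarith
    refine ⟨⟨m, hk.symm, hlaw⟩, hupper, fun hev => ?_, ?_⟩
    · have hcard : Nat.card (L ≃ₐ[ℚ] L) = Module.finrank ℚ L := IsGalois.card_aut_eq_finrank ℚ L
      have hinv : 0 < involutions ℚ L := by
        have h2 : 2 ∣ Nat.card (L ≃ₐ[ℚ] L) := by
          rw [hcard]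
          exact hev.two_dvd
        have : Fact (Nat.Prime 2) := ⟨Nat.prime_two⟩
        obtain ⟨g, hg⟩ := exists_prime_orderOf_dvd_card' (G := L ≃ₐ[ℚ] L) 2 h2
        unfold involutions
        have : Nonempty {g : L ≃ₐ[ℚ] L // orderOf g = 2} := ⟨⟨g, hg⟩⟩
        exact Nat.card_pos
      refine ⟨hinv, ?_⟩
      obtain ⟨C, T₀, h⟩ := hupper
      have hi : (0 : ℝ) < involutions ℚ L / 2 := by
        have : (0 : ℝ) < involutions ℚ L := by exact_mod_cast hinv
        linarith
      have h1 : Tendsto (fun T : ℝ => -(involutions ℚ L / 2) * Real.log T + C) atTop atBot := by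
        refine tendsto_atBot_add_const_right _ _ ?_
        exact Real.tendsto_log_atTop.const_mul_atTop_of_neg (by linarith)
      refine tendsto_atBot_mono' _ ?_ h1
      filter_upwards [eventually_ge_atTop T₀] with T hT
      exact h T hT
    · constructor
      · intro h
        have hm : m = 0 := by
          rw [← hk] at h
          exact_mod_cast h
        subst hm
        simpa using hlaw
      · intro h
        have h1 := Pool.Agent.Run7.h453.CB.coeff_unique hlaw h
        have hm : (m : ℂ) = 0 := by linear_combination h1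
        have hm0 : m = 0 := by exact_mod_cast hm
        rw [← hk, hm0]
        rfl

end Pool.Agent.Results.MP_3b6604_nt.ChebyshevBias
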