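import Pool.Agent.Run7.h278.LG.DirPow
import Pool.Agent.Results.MP_3b6604_nt.CentralOrdersMoments

set_option autoImplicit false

/-!
# The second moment detects the orders at the centre and common zeros; the moment of order `2K` relations of length `2K`

Let `F/ℚ` be a finite Galois extension for which Artin's conjecture holds, and choose positive integers `d_χ = d_χ̄` (for
example `χ(1)`).  Put `κ_χ = 1` if `χ` has real values and root number `-1`, and `κ_χ = 0` otherwise.  The statements
(ii) and (iii) together say that the order of `L(s, χ)` at `1/2` is `κ_χ` for all `χ`.  Let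
`A(u) = e^(u/2) (∑_{n ≤ e^u} λ(n) (1/n - e^(-u)) - m u + c)`, `-∑_χ d_χ L'/L(s, χ) = ∑ λ(n) n^(-s)`.  For every `K ≥ 1`
the mean value `δ ∫_0^∞ e^(-δ u) (A(u) - 4 ∑ d_χ κ_χ)^(2K) du` has a limit `ℓ` in `[0, ∞]` as `δ → 0+`, which is never
smaller than the moment `C_K` for independent phases; and `ℓ = C_K` exactly if the Riemann hypothesis holds for all the
`L(s, χ)`, (ii) and (iii) hold, the zeros are simple and there is no relation of even length at most `2K` in the multiset
`Γ_F`.  For `K = 1` the last condition says that no two of the `L(s, χ)` have a common zero on the critical line.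
All these equalities together are equivalent to the Riemann hypothesis for the `L(s, χ)` and (i), (ii), (iii).
-/

namespace Pool.Agent.Results.MP_3b6604_nt.EvenMomentsCentral

open Filter Topology MeasureTheory Set
open scoped ENNReal ComplexConjugate
open Run7.h278.LG (LFun ordAt)

/-- the function `A(u)` for the coefficients `lam`, the pole order `m` and the constant `c` -/
noncomputable def A (lam : ℕ → ℝ) (m c u : ℝ) : ℝ :=
  Real.exp (u / 2) * (∑ n ∈ Finset.Icc 1 ⌊Real.exp u⌋₊, lam n * (1 / (n : ℝ) - Real.exp (-u)) - m * u + c)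

/-- the Abel mean of `(A(u) - x)^(2K)` -/
noncomputable def V (lam : ℕ → ℝ) (m c x : ℝ) (K : ℕ) (δ : ℝ) : ℝ≥0∞ :=
  ∫⁻ u in Ioi (0 : ℝ), ENNReal.ofReal (δ * Real.exp (-δ * u) * (A lam m c u - x) ^ (2 * K))

/-- the Dirichlet series of `lam` -/
noncomputable def D (lam : ℕ → ℝ) (σ : ℝ) : ℝ := ∑' n : ℕ, lam n / (n : ℝ) ^ σ

/-- `1` if the L-function has real coefficients and root number `-1`, otherwise `0` -/
noncomputable def kap (L : LFun) : ℕ := open Classical in if (∀ n, (L.b n).im = 0) ∧ L.w = -1 then 1 else 0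

section families

variable {J : Type} [Fintype J] (L : J → LFun) (d : J → ℕ)

/-- the coefficients of `-∑ d_j L_j'/L_j` -/
noncomputable def lam (n : ℕ) : ℝ := ArithmeticFunction.vonMangoldt n * (∑ j, (d j : ℂ) * (L j).c n).re

/-- the total order of the pole at `1` -/
noncomputable def pole : ℝ := ∑ j, (d j : ℝ) * (L j).pole

/-- the centre `4 ∑ d_j κ_j` -/
noncomputable def centre : ℝ := 4 * ∑ j, (d j : ℝ) * kap (L j)

/-- the pairs of a member of the family and a zero in the upper half plane of its completion -/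
abbrev Zeros : Type := {p : J × ℂ // 0 < p.2.im ∧ (L p.1).Λ p.2 = 0}

/-- the zeros with multiplicity -/
abbrev ZerosM : Type := Σ p : Zeros L, Fin (ordAt (L p.1.1).Λ p.1.2)

/-- the Riemann hypothesis for the members of the family -/
def GRH : Prop := ∀ (j : J) (ρ : ℂ), (L j).Λ ρ = 0 → ρ.re = 1 / 2

/-- the term of the exponents `n` in the moment for independent phases -/
noncomputable def term (n : ZerosM L →₀ ℕ) : ℝ :=
  (n.prod fun x k => ((d x.1.1.1 : ℝ) / (1 / 4 + x.1.1.2.im ^ 2)) ^ k / (k.factorial : ℝ)) ^ 2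

/-- the moment for independent phases -/
noncomputable def Cmom (K : ℕ) : ℝ := (2 * K).factorial * ∑' n : {n : ZerosM L →₀ ℕ // n.degree = K}, term L d n.1

/-- all the zeros in the upper half plane are simple -/
def Simple : Prop := ∀ p : Zeros L, ordAt (L p.1.1).Λ p.1.2 = 1

/-- there is no linear relation of even length at most `p` between the ordinates -/
def NoRelation (p : ℕ) : Prop := ∀ m : Zeros L →₀ ℤ, m ≠ 0 → (m.sum fun _ k => k.natAbs) ≤ p →
  Even (m.sum fun _ k => k.natAbs) → (m.sum fun x k => (k : ℝ) * x.1.2.im) ≠ 0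

end families

open Run7.h278.LG Run7.h278

theorem rel_iff {J : Type} (L : J → LFun) {p : ℕ} (hp : Even p) : ¬Rl (fun x : Zeros L => x.1.2.im) p ↔ NoRelation L p := by
  unfold Rl NoRelation
  constructor
  · intro h m h1 h2 h3 h4
    exact h ⟨m, h1, h4, h2, hp.add h3⟩
  · rintro h ⟨m, h1, h2, h3, h4⟩
    exact h m h1 h3 ((Nat.even_add.1 h4).1 hp) h2

/-- relations of length two are common ordinates -/
theorem rel_two {J : Type} (L : J → LFun) : NoRelation L 2 ↔ ∀ p p' : Zeros L, p.1.2.im = p'.1.2.im → p = p' := by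
  classical
  constructor
  · intro h p p' he
    by_contra hne
    have h1 := h (Finsupp.single p 1 + Finsupp.single p' (-1)) (by
      intro h0
      have := DFunLike.congr_fun h0 p
      rw [Finsupp.add_apply, Finsupp.single_eq_same, Finsupp.single_apply, if_neg (Ne.symm hne)] at this
      simp at this)
    have hS : ∀ {M : Type} [AddCommMonoid M] (g : Zeros L → ℤ → M), (∀ x, g x 0 = 0) →
        (Finsupp.single p (1 : ℤ) + Finsupp.single p' (-1)).sum g = g p 1 + g p' (-1) := by
      intro M _ g hg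
      rw [sum_supZ (S := {p, p'}) (fun z hz => by
        rw [Finsupp.mem_support_iff, Finsupp.add_apply, Finsupp.single_apply, Finsupp.single_apply] at hz
        rw [Finset.mem_insert, Finset.mem_singleton]
        by_contra hc
        push Not at hc
        rw [if_neg (fun hh => hc.1 hh.symm), if_neg (fun hh => hc.2 hh.symm)] at hz
        exact hz (by simp)) g hg, Finset.sum_pair hne]
      rw [Finsupp.add_apply, Finsupp.single_eq_same, Finsupp.single_apply, if_neg (Ne.symm hne),
        Finsupp.add_apply, Finsupp.single_eq_same, Finsupp.single_apply, if_neg hne]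
      simp
    have hL : ((Finsupp.single p (1 : ℤ) + Finsupp.single p' (-1)).sum fun _ k => k.natAbs) = 2 :=
      hS (fun _ k => k.natAbs) (fun _ => rfl)
    refine h1 (by rw [hL]) (by rw [hL]; decide) ?_
    rw [hS (fun x k => (k : ℝ) * x.1.2.im) (by simp), he]
    push_cast
    ring
  · intro h m h0 h1 h2 h3
    obtain ⟨x, hx⟩ : ∃ x, m x ≠ 0 := by
      by_contra hc
      push Not at hc
      exact h0 (Finsupp.ext hc)
    have hxs : x ∈ m.support := Finsupp.mem_support_iff.2 hx
    have hpos : ∀ y : Zeros L, 0 < y.1.2.im := fun y => y.2.1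
    by_cases hy : ∃ y, y ≠ x ∧ m y ≠ 0
    · obtain ⟨y, hyx, hy⟩ := hy
      have hys : y ∈ m.support := Finsupp.mem_support_iff.2 hy
      have hsub : ({x, y} : Finset (Zeros L)) ⊆ m.support := by
        intro z hz
        rw [Finset.mem_insert, Finset.mem_singleton] at hz
        rcases hz with rfl | rfl
        · exact hxs
        · exact hys
      have h4 : ∑ z ∈ ({x, y} : Finset (Zeros L)), (m z).natAbs ≤ 2 := le_trans (Finset.sum_le_sum_of_subset hsub) h1
      rw [Finset.sum_pair (Ne.symm hyx)] at h4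
      have a1 : 1 ≤ (m x).natAbs := Nat.one_le_iff_ne_zero.2 (Int.natAbs_ne_zero.2 hx)
      have a2 : 1 ≤ (m y).natAbs := Nat.one_le_iff_ne_zero.2 (Int.natAbs_ne_zero.2 hy)
      have hsupp : m.support = {x, y} := by
        refine le_antisymm (fun z hz => ?_) hsub
        by_contra hc
        have h5 : insert z ({x, y} : Finset (Zeros L)) ⊆ m.support := Finset.insert_subset hz hsub
        have h6 : ∑ z ∈ insert z ({x, y} : Finset (Zeros L)), (m z).natAbs ≤ 2 := le_trans (Finset.sum_le_sum_of_subset h5) h1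
        rw [Finset.sum_insert hc, Finset.sum_pair (Ne.symm hyx)] at h6
        have a3 : 1 ≤ (m z).natAbs := Nat.one_le_iff_ne_zero.2 (Int.natAbs_ne_zero.2 (Finsupp.mem_support_iff.1 hz))
        omega
      have h7 : (m x : ℝ) * x.1.2.im + (m y : ℝ) * y.1.2.im = 0 := by
        have h8 : ∑ z ∈ m.support, (m z : ℝ) * z.1.2.im = 0 := h3
        rw [hsupp, Finset.sum_pair (Ne.symm hyx)] at h8
        exact h8
      have b1 : (m x).natAbs = 1 := by omega
      have b2 : (m y).natAbs = 1 := by omega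
      rcases Int.natAbs_eq_iff.1 b1 with c1 | c1 <;> rcases Int.natAbs_eq_iff.1 b2 with c2 | c2 <;> rw [c1, c2] at h7 <;> push_cast at h7
      · linarith [hpos x, hpos y]
      · exact hyx (h y x (by linarith))
      · exact hyx (h y x (by linarith))
      · linarith [hpos x, hpos y]
    · push Not at hy
      have hsupp : m.support = {x} := by
        ext z
        rw [Finsupp.mem_support_iff, Finset.mem_singleton]
        constructor
        · intro hz
          by_contra hc
          exact hz (hy z hc)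
        · rintro rfl
          exact hx
      have h8 : ∑ z ∈ m.support, (m z : ℝ) * z.1.2.im = 0 := h3
      rw [hsupp, Finset.sum_singleton] at h8
      rcases mul_eq_zero.1 h8 with h9 | h9
      · exact hx (by exact_mod_cast h9)
      · linarith [hpos x]

/-- relations of all lengths -/
theorem all_rel {ι : Type} (t : ι → ℝ) : (∀ K : ℕ, 1 ≤ K → ¬Rl t (2 * K)) ↔ LinearIndependent ℚ t := by
  constructor
  · intro h
    by_contra hne
    obtain ⟨p, hp⟩ : ∃ m : ι →₀ ℤ, m ≠ 0 ∧ (m.sum fun i n => (n : ℝ) * t i) = 0 := by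
      rw [← LinearIndependent.iff_fractionRing (R := ℤ) (K := ℚ), linearIndependent_iff] at hne
      push Not at hne
      obtain ⟨m, h1, h2⟩ := hne
      refine ⟨m, h2, ?_⟩
      rw [Finsupp.linearCombination_apply] at h1
      rw [← h1]
      refine Finsupp.sum_congr fun i _ => ?_
      rw [zsmul_eq_mul]
    set ℓ := p.sum fun _ k => k.natAbs with hℓ
    have h5 : ((2 • p : ι →₀ ℤ).sum fun _ n => n.natAbs) = 2 * ℓ := by
      have h4 : (2 • p : ι →₀ ℤ).support ⊆ p.support := Finsupp.support_smul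
      rw [Finsupp.sum_of_support_subset _ h4 (fun _ n => n.natAbs) (by simp), hℓ]
      unfold Finsupp.sum
      rw [Finset.mul_sum]
      refine Finset.sum_congr rfl fun i _ => ?_
      simp only [Finsupp.coe_smul, Pi.smul_apply]
      rw [show (2 • p i : ℤ) = 2 * p i by simp, Int.natAbs_mul]
      norm_num
    refine h (ℓ + 1) (by omega) ⟨2 • p, ?_, ?_, ?_, ?_⟩
    · intro h0
      apply hp.1
      ext i
      have := DFunLike.congr_fun h0 i
      simpa using this
    · have h3 : ((2 • p : ι →₀ ℤ).sum fun i n => (n : ℝ) * t i) = 2 * p.sum fun i n => (n : ℝ) * t i := by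
        rw [two_smul, Finsupp.sum_add_index' (by simp) (by intro a b c; push_cast; ring)]
        ring
      rw [h3, hp.2, mul_zero]
    · rw [h5]
      omega
    · rw [h5]
      exact (even_two_mul _).add (even_two_mul _)
  · rintro h K - ⟨m, h1, h2, -, -⟩
    rw [linearIndependent_iff'] at h
    apply h1
    ext i
    by_contra hne
    have hmem : i ∈ m.support := Finsupp.mem_support_iff.2 hne
    have h7 := h m.support (fun i => (m i : ℚ)) (by
      have h8 : ∑ i ∈ m.support, (m i : ℝ) * t i = 0 := h2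
      refine Eq.trans ?_ h8
      refine Finset.sum_congr rfl fun i _ => ?_
      rw [Rat.smul_def]
      push_cast
      rfl) i hmem
    exact hne (by exact_mod_cast h7)

/-- **The theorem.** -/
theorem result (J : Type) [Fintype J] (L : J → LFun) (d : J → ℕ) (hd : ∀ j, 1 ≤ d j)
    (hr : ∀ n, ArithmeticFunction.vonMangoldt n ≠ 0 → (∑ j, (d j : ℂ) * (L j).c n).im = 0) :
    (∀ j, kap (L j) ≤ ordAt (L j).Λ (1 / 2)) ∧
    (NoRelation L 2 ↔ ∀ p p' : Zeros L, p.1.2.im = p'.1.2.im → p = p') ∧
    ∃ c : ℝ, Tendsto (fun σ : ℝ => pole L d / (σ - 1) - D (lam L d) σ) (𝓝[>] 1) (𝓝 (c - pole L d)) ∧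
      (∀ K : ℕ, 1 ≤ K →
        (GRH L → Summable fun n : {n : ZerosM L →₀ ℕ // n.degree = K} => term L d n.1) ∧
        ∃ ℓ : ℝ≥0∞, Tendsto (V (lam L d) (pole L d) c (centre L d) K) (𝓝[>] 0) (𝓝 ℓ) ∧
          (ℓ < ⊤ ↔ GRH L) ∧
          ENNReal.ofReal (Cmom L d K) ≤ ℓ ∧
          (ℓ = ENNReal.ofReal (Cmom L d K) ↔
            GRH L ∧ Simple L ∧ NoRelation L (2 * K) ∧ ∀ j, ordAt (L j).Λ (1 / 2) = kap (L j))) ∧
      ((∀ K : ℕ, 1 ≤ K → Tendsto (V (lam L d) (pole L d) c (centre L d) K) (𝓝[>] 0) (𝓝 (ENNReal.ofReal (Cmom L d K)))) ↔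
        GRH L ∧ (Simple L ∧ LinearIndependent ℚ fun p : Zeros L => p.1.2.im) ∧ ∀ j, ordAt (L j).Λ (1 / 2) = kap (L j)) := by
  refine ⟨fun j => CentralOrdersMoments.kap_le (L j), rel_two L, ?_⟩
  have F : Family (fun j => (L j).shifts) (fun j => (L j).pole) (fun j => (L j).N) (fun j => (L j).b) (fun j => (L j).c)
      (fun j => (L j).Λ) d := ⟨fun j => (L j).isOne, hr⟩
  have hl : ∀ n, |lamF (fun j => (L j).c) d n| ≤ dF (fun j => (L j).shifts) d * ArithmeticFunction.vonMangoldt n := by
    obtain ⟨w, hD⟩ := F.rd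
    exact hD.lam_le
  obtain ⟨c, h1, h2⟩ := F.even2 hd hl (cl_refl _) (fun j => kap (L j)) (fun j => CentralOrdersMoments.kap_le (L j))
  have hr' : ∀ K : ℕ, ¬Rl (fun p : PO (fun j => (L j).Λ) => p.1.2.im) (2 * K) ↔ NoRelation L (2 * K) :=
    fun K => rel_iff L (even_two_mul K)
  have h3 : ∀ K : ℕ, 1 ≤ K →
        (GRH L → Summable fun n : {n : ZerosM L →₀ ℕ // n.degree = K} => term L d n.1) ∧
        ∃ ℓ : ℝ≥0∞, Tendsto (V (lam L d) (pole L d) c (centre L d) K) (𝓝[>] 0) (𝓝 ℓ) ∧
          (ℓ < ⊤ ↔ GRH L) ∧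
          ENNReal.ofReal (Cmom L d K) ≤ ℓ ∧
          (ℓ = ENNReal.ofReal (Cmom L d K) ↔
            GRH L ∧ Simple L ∧ NoRelation L (2 * K) ∧ ∀ j, ordAt (L j).Λ (1 / 2) = kap (L j)) := by
    intro K hK
    obtain ⟨g1, ℓ, g2, g3, g4, g5⟩ := h2 K hK
    rw [hr'] at g5
    refine ⟨g1, ℓ, g2, g3, g4, g5.trans ?_⟩
    constructor
    · rintro ⟨a, ⟨b, c⟩, d⟩
      exact ⟨a, b, c, d⟩
    · rintro ⟨a, b, c, d⟩
      exact ⟨a, ⟨b, c⟩, d⟩
  refine ⟨c, h1, h3, ?_⟩
  have hLI := all_rel (fun p : Zeros L => p.1.2.im)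
  constructor
  · intro h
    have h4 : ∀ K : ℕ, 1 ≤ K → GRH L ∧ Simple L ∧ NoRelation L (2 * K) ∧ ∀ j, ordAt (L j).Λ (1 / 2) = kap (L j) := by
      intro K hK
      obtain ⟨-, ℓ, g2, -, -, g5⟩ := h3 K hK
      exact g5.1 (tendsto_nhds_unique g2 (h K hK))
    exact ⟨(h4 1 le_rfl).1, ⟨(h4 1 le_rfl).2.1, hLI.1 fun K hK => (hr' K).2 (h4 K hK).2.2.1⟩, (h4 1 le_rfl).2.2.2⟩
  · rintro ⟨a, ⟨b, d⟩, e⟩ K hK
    obtain ⟨-, ℓ, g2, -, -, g5⟩ := h3 K hK
    rw [← g5.2 ⟨a, b, (hr' K).1 (hLI.2 d K hK), e⟩]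
    exact g2

end Pool.Agent.Results.MP_3b6604_nt.EvenMomentsCentral
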